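import Mathlib
import Pool.Agent.J4H39.KP.TL

set_option autoImplicit false

/-! Project KP, part TL, (T4): the expected number of the clusters of `K` walks is `O (√(log K))`. -/

namespace Pool.Agent.J4H42.KP

open Finset Filter Real
open Pool.Agent.J4H26.KT (iw cw sw isE_cw isE_iw iw_single)
open Pool.Agent.J4H39.KP (nc cw_ne_le S_ENC)

/-- the number of the values is at most `1 +` the number of the changes -/
theorem nc_chg : ∀ (n : ℕ) (v : Fin (n + 1) → ℤ),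
    nc v ≤ 1 + ∑ j : Fin n, if v j.castSucc = v j.succ then 0 else 1 := by
  intro n
  induction n with
  | zero =>
    intro v
    unfold nc
    refine card_image_le.trans ?_
    simp
  | succ n ih =>
    intro v
    have h1 := ih (fun j => v j.castSucc)
    have hsub : univ.image v ⊆ (univ.image (fun j : Fin (n + 1) => v j.castSucc)) ∪
        (if v (Fin.last n).castSucc = v (Fin.last n).succ then ∅ else {v (Fin.last n).succ}) := by
      intro x hx
      obtain ⟨i, _, rfl⟩ := mem_image.1 hx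
      refine Fin.lastCases ?_ (fun j => ?_) i
      · split_ifs with h
        · refine mem_union_left _ (mem_image.2 ⟨Fin.last n, mem_univ _, ?_⟩)
          rw [h, Fin.succ_last]
        · refine mem_union_right _ ?_
          rw [mem_singleton, Fin.succ_last]
      · exact mem_union_left _ (mem_image.2 ⟨j, mem_univ _, rfl⟩)
    have h2 : nc v ≤ nc (fun j : Fin (n + 1) => v j.castSucc) +
        (if v (Fin.last n).castSucc = v (Fin.last n).succ then 0 else 1) := by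
      unfold nc
      refine (card_le_card hsub).trans ((card_union_le _ _).trans ?_)
      refine Nat.add_le_add le_rfl ?_
      split_ifs <;> simp
    rw [Fin.sum_univ_castSucc]
    have e : ∀ j : Fin n, (if v j.castSucc.castSucc = v j.succ.castSucc then (0 : ℕ) else 1) =
        if v j.castSucc.castSucc = v j.castSucc.succ then 0 else 1 := by
      intro j
      rw [Fin.succ_castSucc]
    rw [sum_congr rfl (fun j _ => e j)] at h1
    omega

theorem nc_perm {K : ℕ} (u : Fin K → ℤ) (σ : Equiv.Perm (Fin K)) : nc (fun j => u (σ j)) = nc u := by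
  unfold nc
  congr 1
  ext x
  simp only [mem_image, mem_univ, true_and]
  constructor
  · rintro ⟨i, hi⟩
    exact ⟨_, hi⟩
  · rintro ⟨i, hi⟩
    exact ⟨σ.symm i, by rw [Equiv.apply_symm_apply]; exact hi⟩

/-- the expected number of clusters in terms of the range -/
theorem cw_range {n k : ℕ} (hk : 1 ≤ k) (z : Fin (n + 1) → ℤ) : ∃ a b : Fin (n + 1),
    cw (fun u : Fin (n + 1) → ℤ => (nc u : ℝ)) k z ≤ 1 + 3 * ((z b : ℝ) - z a) / √(k : ℝ) := by
  obtain ⟨σ, hσ⟩ : ∃ σ : Equiv.Perm (Fin (n + 1)), Monotone (fun j => z (σ j)) := ⟨Tuple.sort z, Tuple.monotone_sort z⟩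
  refine ⟨σ 0, σ (Fin.last n), ?_⟩
  have hE := isE_cw k z
  have h1 : ∀ u : Fin (n + 1) → ℤ, (nc u : ℝ) ≤ 1 + ∑ j : Fin n, if u (σ j.castSucc) = u (σ j.succ) then (0 : ℝ) else 1 := by
    intro u
    have h := nc_chg n (fun j => u (σ j))
    rw [nc_perm] at h
    have h' : (nc u : ℝ) ≤ ((1 + ∑ j : Fin n, if u (σ j.castSucc) = u (σ j.succ) then 0 else 1 : ℕ) : ℝ) := by exact_mod_cast h
    push_cast at h'
    exact h'
  refine (hE.mono _ _ h1).trans ?_
  rw [hE.add, hE.const, hE.sum]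
  have h2 : ∀ j ∈ (univ : Finset (Fin n)), cw (fun u => if u (σ j.castSucc) = u (σ j.succ) then (0 : ℝ) else 1) k z ≤
      3 / √(k : ℝ) * ((z (σ j.succ) : ℝ) - z (σ j.castSucc)) := by
    intro j _
    refine (cw_ne_le _ _ hk z).trans (le_of_eq ?_)
    have h3 : z (σ j.castSucc) ≤ z (σ j.succ) := hσ (Fin.castSucc_lt_succ).le
    rw [abs_of_nonneg (by exact_mod_cast sub_nonneg.2 h3)]
    push_cast
    ring
  have h3 := sum_le_sum h2
  rw [← mul_sum] at h3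
  have h4 : ∀ (n : ℕ) (g : Fin (n + 1) → ℝ), ∑ j : Fin n, (g j.succ - g j.castSucc) = g (Fin.last n) - g 0 := by
    intro n
    induction n with
    | zero => intro g; simp
    | succ n ih =>
      intro g
      rw [Fin.sum_univ_castSucc]
      have := ih (fun j => g j.castSucc)
      simp only [Fin.castSucc_zero] at this
      have e : ∀ j : Fin n, g j.castSucc.succ - g j.castSucc.castSucc = g j.succ.castSucc - g j.castSucc.castSucc := by
        intro j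
        rw [Fin.succ_castSucc]
      rw [sum_congr rfl (fun j _ => e j), this, Fin.succ_last]
      ring
  rw [h4 n (fun j => (z (σ j) : ℝ))] at h3
  have e : 3 * ((z (σ (Fin.last n)) : ℝ) - z (σ 0)) / √(k : ℝ) = 3 / √(k : ℝ) * ((z (σ (Fin.last n)) : ℝ) - z (σ 0)) := by ring
  rw [e]
  linarith

theorem sw_exp (a c : ℝ) (n : ℕ) : ∀ d : ℤ, sw (fun u : ℤ => exp (a * (2 * (u : ℝ) - c))) n d =
    exp (a * (2 * (d : ℝ) - c + n)) * cosh a ^ n := by
  induction n with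
  | zero => intro d; simp [sw]
  | succ n ih =>
    intro d
    simp only [sw]
    rw [ih, ih, cosh_eq]
    push_cast
    have e1 : a * (2 * (d : ℝ) - c + n) = a * (2 * (d : ℝ) - c + (n + 1)) + -a := by ring
    have e2 : a * (2 * ((d : ℝ) + 1) - c + n) = a * (2 * (d : ℝ) - c + (n + 1)) + a := by ring
    rw [e1, e2, exp_add, exp_add, pow_succ]
    ring

theorem sw_exp_le {b : ℝ} {s : ℕ} (hs : 1 ≤ s) :
    sw (fun u : ℤ => exp (b / √(s : ℝ) * (2 * (u : ℝ) - s))) s 0 ≤ exp (b ^ 2 / 2) := by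
  have hs0 : (0 : ℝ) < s := by exact_mod_cast hs
  rw [sw_exp]
  have e : b / √(s : ℝ) * (2 * ((0 : ℤ) : ℝ) - s + s) = 0 := by push_cast; ring
  rw [e, exp_zero, one_mul]
  refine (pow_le_pow_left₀ (cosh_pos _).le (cosh_le_exp_half_sq _) s).trans (le_of_eq ?_)
  rw [← exp_nat_mul, div_pow, sq_sqrt hs0.le]
  congr 1
  field_simp

/-- one position -/
theorem pos_le {b : ℝ} (hb : 0 < b) {s : ℕ} (hs : 1 ≤ s) (x : ℝ) : |x| ≤ √(s : ℝ) * (b + 1 / b * (exp (-b ^ 2) *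
    (exp (b / √(s : ℝ) * x) + exp (-b / √(s : ℝ) * x)))) := by
  have hs0 : (0 : ℝ) < s := by exact_mod_cast hs
  have hq : 0 < √(s : ℝ) := sqrt_pos.2 hs0
  have h1 : |x| / √(s : ℝ) - b ≤ 1 / b * (exp (-b ^ 2) * exp (b / √(s : ℝ) * |x|)) := by
    rw [← exp_add, one_div, ← div_eq_inv_mul, le_div_iff₀ hb]
    have h2 : b * (|x| / √(s : ℝ) - b) + 1 ≤ exp (b * (|x| / √(s : ℝ) - b)) := add_one_le_exp _
    have e : b * (|x| / √(s : ℝ) - b) = -b ^ 2 + b / √(s : ℝ) * |x| := by ring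
    rw [← e]
    linarith
  have h3 : exp (b / √(s : ℝ) * |x|) ≤ exp (b / √(s : ℝ) * x) + exp (-b / √(s : ℝ) * x) := by
    rcases abs_cases x with ⟨h, _⟩ | ⟨h, _⟩
    · rw [h]
      linarith [exp_pos (-b / √(s : ℝ) * x)]
    · rw [h]
      have e : b / √(s : ℝ) * -x = -b / √(s : ℝ) * x := by ring
      rw [e]
      linarith [exp_pos (b / √(s : ℝ) * x)]
  have h4 : |x| / √(s : ℝ) ≤ b + 1 / b * (exp (-b ^ 2) * (exp (b / √(s : ℝ) * x) + exp (-b / √(s : ℝ) * x))) := by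
    have h5 : 1 / b * (exp (-b ^ 2) * exp (b / √(s : ℝ) * |x|)) ≤
        1 / b * (exp (-b ^ 2) * (exp (b / √(s : ℝ) * x) + exp (-b / √(s : ℝ) * x))) := by
      gcongr
    linarith
  rw [div_le_iff₀ hq] at h4
  linarith

theorem enc_aux {n k s : ℕ} (hk : 1 ≤ k) (hs : 1 ≤ s) {b : ℝ} (hb : 0 < b) :
    iw (cw (fun u : Fin (n + 1) → ℤ => (nc u : ℝ)) k) s (fun _ => 0) ≤
      1 + 3 / √(k : ℝ) * (√(s : ℝ) * (b + 1 / b * (exp (-b ^ 2) * ((n + 1) * (2 * exp (b ^ 2 / 2)))))) := by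
  have hk0 : (0 : ℝ) < k := by exact_mod_cast hk
  have hs0 : (0 : ℝ) < s := by exact_mod_cast hs
  have hqk : 0 < √(k : ℝ) := sqrt_pos.2 hk0
  have hqs : 0 < √(s : ℝ) := sqrt_pos.2 hs0
  have hE := isE_iw s (fun _ : Fin (n + 1) => (0 : ℤ))
  set g : ℤ → ℝ := fun u => exp (b / √(s : ℝ) * (2 * (u : ℝ) - s)) + exp (-b / √(s : ℝ) * (2 * (u : ℝ) - s)) with hg
  have hg0 : ∀ u, 0 ≤ g u := fun u => by rw [hg]; positivity
  have h1 : ∀ z : Fin (n + 1) → ℤ, cw (fun u : Fin (n + 1) → ℤ => (nc u : ℝ)) k z ≤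
      (1 + 3 / √(k : ℝ) * (√(s : ℝ) * b)) + (3 / √(k : ℝ) * √(s : ℝ) * (1 / b) * exp (-b ^ 2)) * ∑ i, g (z i) := by
    intro z
    obtain ⟨p, q, h⟩ := cw_range hk z
    refine h.trans ?_
    have hS : ∀ i, g (z i) ≤ ∑ i, g (z i) := fun i => single_le_sum (f := fun i => g (z i)) (fun j _ => hg0 (z j)) (mem_univ i)
    have hp := pos_le hb hs (2 * (z p : ℝ) - s)
    have hq := pos_le hb hs (2 * (z q : ℝ) - s)
    have hx : ∀ i, √(s : ℝ) * (b + 1 / b * (exp (-b ^ 2) * (exp (b / √(s : ℝ) * (2 * (z i : ℝ) - s)) +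
        exp (-b / √(s : ℝ) * (2 * (z i : ℝ) - s))))) ≤ √(s : ℝ) * (b + 1 / b * (exp (-b ^ 2) * ∑ i, g (z i))) := by
      intro i
      have := hS i
      simp only [hg] at this ⊢
      gcongr
    have hp' := hp.trans (hx p)
    have hq' := hq.trans (hx q)
    have hr : (z q : ℝ) - z p ≤ √(s : ℝ) * (b + 1 / b * (exp (-b ^ 2) * ∑ i, g (z i))) := by
      have a1 := (le_abs_self (2 * (z q : ℝ) - s)).trans hq'
      have a2 := (neg_le_abs (2 * (z p : ℝ) - s)).trans hp'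
      linarith
    have hm : 3 / √(k : ℝ) * ((z q : ℝ) - z p) ≤ 3 / √(k : ℝ) * (√(s : ℝ) * (b + 1 / b * (exp (-b ^ 2) * ∑ i, g (z i)))) :=
      mul_le_mul_of_nonneg_left hr (by positivity)
    have e : 3 * ((z q : ℝ) - z p) / √(k : ℝ) = 3 / √(k : ℝ) * ((z q : ℝ) - z p) := by ring
    rw [e]
    refine (add_le_add le_rfl hm).trans (le_of_eq ?_)
    ring
  refine (hE.mono _ _ h1).trans ?_
  rw [hE.add, hE.const, hE.smul, hE.sum]
  have h2 : ∀ i ∈ (univ : Finset (Fin (n + 1))), iw (fun z : Fin (n + 1) → ℤ => g (z i)) s (fun _ => 0) ≤ 2 * exp (b ^ 2 / 2) := by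
    intro i _
    rw [iw_single g s (fun _ => 0) i]
    have q1 : iw (fun z : Fin (n + 1) → ℤ => exp (b / √(s : ℝ) * (2 * (z i : ℝ) - s))) s (fun _ => 0) =
        sw (fun u : ℤ => exp (b / √(s : ℝ) * (2 * (u : ℝ) - s))) s 0 :=
      iw_single (fun u : ℤ => exp (b / √(s : ℝ) * (2 * (u : ℝ) - s))) s (fun _ => 0) i
    have q2 : iw (fun z : Fin (n + 1) → ℤ => exp (-b / √(s : ℝ) * (2 * (z i : ℝ) - s))) s (fun _ => 0) =
        sw (fun u : ℤ => exp (-b / √(s : ℝ) * (2 * (u : ℝ) - s))) s 0 :=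
      iw_single (fun u : ℤ => exp (-b / √(s : ℝ) * (2 * (u : ℝ) - s))) s (fun _ => 0) i
    have q3 := hE.add (fun z : Fin (n + 1) → ℤ => exp (b / √(s : ℝ) * (2 * (z i : ℝ) - s)))
      (fun z : Fin (n + 1) → ℤ => exp (-b / √(s : ℝ) * (2 * (z i : ℝ) - s)))
    have q4 : sw g s 0 = iw (fun z : Fin (n + 1) → ℤ => g (z i)) s (fun _ => 0) := (iw_single g s (fun _ => 0) i).symm
    have e1 : sw g s 0 = sw (fun u : ℤ => exp (b / √(s : ℝ) * (2 * (u : ℝ) - s))) s 0 +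
        sw (fun u : ℤ => exp (-b / √(s : ℝ) * (2 * (u : ℝ) - s))) s 0 := by
      rw [q4, ← q1, ← q2]
      exact q3
    rw [e1]
    have a1 := sw_exp_le (b := b) hs
    have a2 := sw_exp_le (b := -b) hs
    rw [neg_sq] at a2
    linarith
  have h3 := sum_le_sum h2
  rw [sum_const, card_univ, Fintype.card_fin, nsmul_eq_mul] at h3
  have hm : (3 / √(k : ℝ) * √(s : ℝ) * (1 / b) * exp (-b ^ 2)) * ∑ i, iw (fun z : Fin (n + 1) → ℤ => g (z i)) s (fun _ => 0) ≤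
      (3 / √(k : ℝ) * √(s : ℝ) * (1 / b) * exp (-b ^ 2)) * (((n + 1 : ℕ) : ℝ) * (2 * exp (b ^ 2 / 2))) :=
    mul_le_mul_of_nonneg_left h3 (by positivity)
  push_cast at hm
  refine (add_le_add le_rfl hm).trans (le_of_eq ?_)
  ring

/-- (T4) -/
theorem t_ENC : S_ENC := by
  intro ρ hρ
  refine ⟨2 + 18 * √ρ, by positivity, ?_⟩
  intro K hK
  rw [eventually_atTop]
  refine ⟨1, fun k hk s hs hsk => ?_⟩
  obtain ⟨n, rfl⟩ : ∃ n, K = n + 1 := ⟨K - 1, by omega⟩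
  have hk0 : (0 : ℝ) < k := by exact_mod_cast hk
  have hs0 : (0 : ℝ) < s := by exact_mod_cast hs
  have hqk : 0 < √(k : ℝ) := sqrt_pos.2 hk0
  have hK2 : (2 : ℝ) ≤ ((n + 1 : ℕ) : ℝ) := by exact_mod_cast hK
  have hK0 : (0 : ℝ) < ((n + 1 : ℕ) : ℝ) := by linarith
  set L : ℝ := √(log ((n + 1 : ℕ) : ℝ)) with hL
  have hlog : (1 / 2 : ℝ) ≤ log ((n + 1 : ℕ) : ℝ) := by
    have h1 := log_two_gt_d9
    have h2 := log_le_log (by norm_num) hK2
    linarith
  have hLL : L ^ 2 = log ((n + 1 : ℕ) : ℝ) := sq_sqrt (by linarith)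
  have hL1 : (1 / 2 : ℝ) ≤ L := by
    have h0 : 0 ≤ L := sqrt_nonneg _
    by_contra h
    push Not at h
    nlinarith
  have hL0 : 0 < L := by linarith
  have h2 : (√2 : ℝ) ^ 2 = 2 := sq_sqrt (by norm_num)
  have h20 : (0 : ℝ) < √2 := sqrt_pos.2 (by norm_num)
  have h22 : (√2 : ℝ) ≤ 2 := by nlinarith
  have hb : 0 < √2 * L := by positivity
  refine (enc_aux hk hs hb).trans ?_
  have e1 : (√2 * L) ^ 2 = 2 * log ((n + 1 : ℕ) : ℝ) := by rw [mul_pow, h2, hLL]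
  have e2 : exp (-(√2 * L) ^ 2) * (((n : ℝ) + 1) * (2 * exp ((√2 * L) ^ 2 / 2))) = 2 := by
    rw [e1]
    have e3 : 2 * log ((n + 1 : ℕ) : ℝ) / 2 = log ((n + 1 : ℕ) : ℝ) := by ring
    have e4 : -(2 * log ((n + 1 : ℕ) : ℝ)) = -log ((n + 1 : ℕ) : ℝ) + -log ((n + 1 : ℕ) : ℝ) := by ring
    rw [e3, e4, exp_add, exp_neg, exp_log hK0]
    push_cast at hK0 ⊢
    field_simp
  rw [e2]
  have h5 : √(s : ℝ) / √(k : ℝ) ≤ √ρ := by
    rw [div_le_iff₀ hqk, ← sqrt_mul hρ.le]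
    exact sqrt_le_sqrt hsk
  have h6 : 1 / (√2 * L) * 2 ≤ 4 * L := by
    rw [div_mul_eq_mul_div, one_mul, div_le_iff₀ hb]
    have : (1 : ℝ) ≤ √2 := by nlinarith
    nlinarith
  have h7 : √2 * L + 1 / (√2 * L) * 2 ≤ 6 * L := by nlinarith
  have h8 : 3 / √(k : ℝ) * (√(s : ℝ) * (√2 * L + 1 / (√2 * L) * 2)) = 3 * (√(s : ℝ) / √(k : ℝ)) * (√2 * L + 1 / (√2 * L) * 2) := by ring
  rw [h8]
  have h9 : 3 * (√(s : ℝ) / √(k : ℝ)) * (√2 * L + 1 / (√2 * L) * 2) ≤ 3 * √ρ * (6 * L) := by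
    gcongr
  linarith

end Pool.Agent.J4H42.KP
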